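import Pool.Agent.HM.Stmts

/-!
PLAN. AbsoluteValue.denseRange_algebraMap_pi (Mathlib.Analysis.AbsoluteValue.Equivalence) for the finite
family of absolute values x -> norm (algebraMap K (Cpl v) x), v in S: they are nontrivial and pairwise
inequivalent. Inequivalence: two finite places: an element of one prime not in the other
(see NumberField.FinitePlace.mk_eq_iff); two infinite places: InfinitePlace.eq_iff_isEquiv;
finite against infinite: the norm of 2 (or of any natural number) is <= 1 at a finite place and > 1
at an infinite one. First approximate t v by an element of K at each v separately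
(density of K in Cpl v: IsDedekindDomain.HeightOneSpectrum.denseRange_algebraMap resp.
NumberField.InfinitePlace.Completion.denseRange_coe), then apply weak approximation to these elements.
norm (algebraMap K (Cpl v) x) is FinitePlace.norm_embedding / adicAbv at a finite place and
InfinitePlace.Completion.norm_coe at an infinite place. Please state and prove also small reusable
lemmas (norm at finite place <= 1 iff valuation <= 1, density) before the main theorem.
-/

open NumberField IsDedekindDomain Topology Filter

noncomputable section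

namespace HM

open HP7 (Pl)

section

variable {K : Type} [Field K] [NumberField K]

/-- The norm in the completion at a finite place. -/
theorem norm_fin (v : HeightOneSpectrum (𝓞 K)) (x : K) :
    ‖algebraMap K (v.adicCompletion K) x‖ = HeightOneSpectrum.adicAbv K v x :=
  FinitePlace.norm_embedding v x

omit [NumberField K] in
/-- The norm in the completion at an infinite place. -/
theorem norm_inf (v : InfinitePlace K) (x : K) : ‖algebraMap K v.Completion x‖ = v.1 x :=
  InfinitePlace.Completion.norm_coe v (WithAbs.toAbs v.1 x)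

/-- The norm at a finite place is at most one iff the valuation is. -/
theorem abv_le_one_iff (v : HeightOneSpectrum (𝓞 K)) (x : K) :
    HeightOneSpectrum.adicAbv K v x ≤ 1 ↔ v.valuation K x ≤ 1 := by
  rw [HeightOneSpectrum.adicAbv_def]
  have h1 := WithZeroMulInt.toNNReal_le_one_iff (m := v.valuation K x)
    (HeightOneSpectrum.one_lt_absNorm_nnreal v)
  rw [← h1]
  exact_mod_cast Iff.rfl

theorem norm_fin_le_one_iff (v : HeightOneSpectrum (𝓞 K)) (x : K) :
    ‖algebraMap K (v.adicCompletion K) x‖ ≤ 1 ↔ v.valuation K x ≤ 1 := by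
  rw [norm_fin, abv_le_one_iff]

/-- Density of the global field in the completion at a finite place. -/
theorem dense_fin (v : HeightOneSpectrum (𝓞 K)) :
    DenseRange (algebraMap K (v.adicCompletion K)) :=
  v.denseRange_algebraMap K

omit [NumberField K] in
/-- Density of the global field in the completion at an infinite place. -/
theorem dense_inf (v : InfinitePlace K) : DenseRange (algebraMap K v.Completion) := by
  have h1 : DenseRange ((↑) : WithAbs v.1 → v.Completion) := InfinitePlace.Completion.denseRange_coe v
  have h2 := h1.comp (WithAbs.equiv v.1).symm.surjective.denseRange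
    (InfinitePlace.Completion.continuous_coe v)
  exact h2

theorem dense_cpl (w : Pl K) : DenseRange (algebraMap K (Cpl w)) := by
  rcases w with v | v
  · exact dense_fin v
  · exact dense_inf v

/-- Approximation at one place. -/
theorem approx_one (w : Pl K) (t : Cpl w) {ε : ℝ} (hε : 0 < ε) :
    ∃ y : K, ‖algebraMap K (Cpl w) y - t‖ < ε := by
  obtain ⟨y, hy⟩ := Metric.denseRange_iff.mp (dense_cpl w) t ε hε
  refine ⟨y, ?_⟩
  rw [← dist_eq_norm, dist_comm]
  exact hy

/-- The absolute value of a place. -/
def plAbv (w : Pl K) : AbsoluteValue K ℝ :=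
  match w with
  | Sum.inl v => HeightOneSpectrum.adicAbv K v
  | Sum.inr v => v.1

theorem norm_pl (w : Pl K) (x : K) : ‖algebraMap K (Cpl w) x‖ = plAbv w x := by
  rcases w with v | v
  · exact norm_fin v x
  · exact norm_inf v x

/-- An element of norm less than one at a finite place and norm one at another one. -/
theorem exists_sep {v v' : HeightOneSpectrum (𝓞 K)} (h : v ≠ v') :
    ∃ r : 𝓞 K, HeightOneSpectrum.adicAbv K v (algebraMap (𝓞 K) K r) < 1 ∧
      HeightOneSpectrum.adicAbv K v' (algebraMap (𝓞 K) K r) = 1 := by
  have h1 : ¬ v.asIdeal ≤ v'.asIdeal := by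
    intro hle
    exact h (HeightOneSpectrum.ext (v.isMaximal.eq_of_le v'.isMaximal.ne_top hle))
  obtain ⟨r, hr, hr'⟩ := SetLike.not_le_iff_exists.mp h1
  refine ⟨r, ?_, ?_⟩
  · rw [← FinitePlace.norm_embedding]
    exact (FinitePlace.norm_lt_one_iff_mem K v r).mpr hr
  · rw [← FinitePlace.norm_embedding]
    exact (FinitePlace.norm_eq_one_iff_notMem K v' r).mpr hr'

theorem abv_nontrivial (w : Pl K) : (plAbv w).IsNontrivial := by
  rcases w with v | v
  · obtain ⟨r, hr, hr0⟩ := Submodule.exists_mem_ne_zero_of_ne_bot v.ne_bot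
    refine ⟨algebraMap (𝓞 K) K r, ?_, ?_⟩
    · intro h0
      exact hr0 ((FaithfulSMul.algebraMap_eq_zero_iff (𝓞 K) K).mp h0)
    · apply ne_of_lt
      show HeightOneSpectrum.adicAbv K v (algebraMap (𝓞 K) K r) < 1
      rw [← FinitePlace.norm_embedding]
      exact (FinitePlace.norm_lt_one_iff_mem K v r).mpr hr
  · exact v.isNontrivial

theorem fin_inf_not_isEquiv (v : HeightOneSpectrum (𝓞 K)) (v' : InfinitePlace K) :
    ¬ (HeightOneSpectrum.adicAbv K v).IsEquiv v'.1 := by
  intro h
  have h1 : HeightOneSpectrum.adicAbv K v ((2 : ℕ) : K) ≤ 1 :=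
    HeightOneSpectrum.adicAbv_natCast_le_one K v 2
  have h2 := h.le_one_iff.mp h1
  have h3 : v'.1 ((2 : ℕ) : K) = 2 := by
    obtain ⟨φ, hφ⟩ := v'.2
    rw [← hφ, NumberField.place_apply, map_natCast]
    norm_num
  rw [h3] at h2
  norm_num at h2

theorem not_isEquiv {w w' : Pl K} (h : w ≠ w') : ¬ (plAbv w).IsEquiv (plAbv w') := by
  rcases w with v | v
  · rcases w' with v' | v'
    · intro he
      obtain ⟨r, h1, h2⟩ := exists_sep (fun e => h (congrArg Sum.inl e))
      have h3 := he.lt_one_iff.mp h1
      change HeightOneSpectrum.adicAbv K v' (algebraMap (𝓞 K) K r) < 1 at h3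
      rw [h2] at h3
      exact lt_irrefl _ h3
    · exact fin_inf_not_isEquiv v v'
  · rcases w' with v' | v'
    · exact fun he => fin_inf_not_isEquiv v' v he.symm
    · intro he
      exact h (congrArg Sum.inr (InfinitePlace.eq_iff_isEquiv.mpr he))

/-- Weak approximation for elements of the number field. -/
theorem approx_global (S : Finset (Pl K)) (y : Pl K → K) {ε : ℝ} (hε : 0 < ε) :
    ∃ x : K, ∀ w ∈ S, plAbv w (x - y w) < ε := by
  have h1 := AbsoluteValue.denseRange_algebraMap_pi (ι := S) (v := fun i => plAbv i.1)
    (fun i => abv_nontrivial i.1) (fun i j hij => not_isEquiv fun e => hij (Subtype.ext e))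
  obtain ⟨x, hx⟩ := Metric.denseRange_iff.mp h1
    (fun i => WithAbs.toAbs (plAbv i.1) (y i.1)) ε hε
  refine ⟨x, fun w hw => ?_⟩
  have h2 := lt_of_le_of_lt (dist_le_pi_dist _ _ (⟨w, hw⟩ : S)) hx
  rw [dist_comm, dist_eq_norm] at h2
  exact h2

end

theorem thm_WA : St_WA := by
  intro K _ _ S t ε hε
  choose y hy using fun w : Pl K => approx_one w (t w) (half_pos hε)
  obtain ⟨x, hx⟩ := approx_global S y (half_pos hε)
  refine ⟨x, fun w hw => ?_⟩
  have h1 := hx w hw
  rw [← norm_pl] at h1
  have e : algebraMap K (Cpl w) x - t w =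
      algebraMap K (Cpl w) (x - y w) + (algebraMap K (Cpl w) (y w) - t w) := by
    rw [map_sub]
    ring
  rw [e]
  calc ‖algebraMap K (Cpl w) (x - y w) + (algebraMap K (Cpl w) (y w) - t w)‖
      ≤ ‖algebraMap K (Cpl w) (x - y w)‖ + ‖algebraMap K (Cpl w) (y w) - t w‖ := norm_add_le _ _
    _ < ε / 2 + ε / 2 := add_lt_add h1 (hy w)
    _ = ε := add_halves ε

end HM
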