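import Pool.Agent.HM.Stmts

/-!
Elementary lemmas on diagonal quadratic forms.
-/

open NumberField IsDedekindDomain Topology Filter

noncomputable section

namespace HM

open HP7 (Pl)

theorem thm_Tern : St_Tern := by
  intro F _ a b c h2 ha hb hc
  constructor
  · rintro ⟨x, y, z, hne, h⟩
    by_cases hz : z = 0
    · subst hz
      have hy : y ≠ 0 := by
        rintro rfl
        have hx : x = 0 := by
          have : a * x ^ 2 = 0 := by linear_combination h
          simpa [ha] using this
        exact hne ⟨hx, rfl, rfl⟩
      have hx : x ≠ 0 := by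
        rintro rfl
        have : b * y ^ 2 = 0 := by linear_combination h
        simp [hb, hy] at this
      -- -(a b) = r ^ 2 with r = a x / y
      have hr : (a * x / y) ^ 2 = -(a * b) := by
        field_simp
        linear_combination h
      have hr0 : a * x / y ≠ 0 := div_ne_zero (mul_ne_zero ha hx) hy
      refine ⟨(-(a * c) + 1) / 2, (-(a * c) - 1) / (2 * (a * x / y)), ?_⟩
      rw [← hr]
      field_simp
      ring
    · refine ⟨a * x / z, y / z, ?_⟩
      field_simp
      linear_combination (-1) * h
  · rintro ⟨x, y, h⟩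
    refine ⟨x / a, y, 1, fun hh => one_ne_zero hh.2.2, ?_⟩
    field_simp
    linear_combination -h

/-- Isotropic binary forms are universal. -/
theorem bin_univ {F : Type} [Field F] (h2 : (2 : F) ≠ 0) {a b x y : F} (ha : a ≠ 0)
    (hx : x ≠ 0) (h : a * x ^ 2 + b * y ^ 2 = 0) (m : F) :
    ∃ X Y : F, a * X ^ 2 + b * Y ^ 2 = m := by
  refine ⟨x * (1 + m / (4 * a * x ^ 2)), y * (1 - m / (4 * a * x ^ 2)), ?_⟩
  have h4 : (4 : F) ≠ 0 := by
    have : (4 : F) = 2 * 2 := by norm_num
    rw [this]; exact mul_ne_zero h2 h2
  have e : b * y ^ 2 = -(a * x ^ 2) := by linear_combination h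
  have e2 : a * (x * (1 + m / (4 * a * x ^ 2))) ^ 2 + b * (y * (1 - m / (4 * a * x ^ 2))) ^ 2
      = a * x ^ 2 * ((1 + m / (4 * a * x ^ 2)) ^ 2 - (1 - m / (4 * a * x ^ 2)) ^ 2) := by
    linear_combination (1 - m / (4 * a * x ^ 2)) ^ 2 * e
  rw [e2]
  field_simp
  ring

theorem thm_Quat : St_Quat := by
  intro F _ a b c e s h2 ha hb hc he hs hiso
  obtain ⟨x, y, z, w, hne, h⟩ := hiso
  -- absorb the square
  have hk : a * b * c ≠ 0 := mul_ne_zero (mul_ne_zero ha hb) hc
  have hs0 : s ≠ 0 := by
    rintro rfl
    have : a * b * c * e = 0 := by rw [hs]; ring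
    exact mul_ne_zero hk he this
  set w' : F := s / (a * b * c) * w with hw'
  have he' : e * w ^ 2 = a * b * c * w' ^ 2 := by
    rw [hw', mul_pow, div_pow, ← hs]
    field_simp
  have hw0 : w' = 0 → w = 0 := by
    intro h0
    rw [hw'] at h0
    rcases mul_eq_zero.1 h0 with h1 | h1
    · exact absurd h1 (div_ne_zero hs0 hk)
    · exact h1
  have hN : (a * x) ^ 2 + a * b * y ^ 2 + a * c * (z ^ 2 + a * b * w' ^ 2) = 0 := by
    linear_combination a * h - a * he'
  by_cases hzw : z ^ 2 + a * b * w' ^ 2 = 0
  · -- then the binary form a, b is isotropic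
    rw [hzw, mul_zero, add_zero] at hN
    by_cases hx : x = 0
    · by_cases hy : y = 0
      · -- z, w' not both zero
        by_cases hw : w' = 0
        · have hz : z = 0 := by
            rw [hw] at hzw
            have : z ^ 2 = 0 := by linear_combination hzw
            simpa using this
          exact absurd ⟨hx, hy, hz, hw0 hw⟩ hne
        · have : a * (z / a) ^ 2 + b * w' ^ 2 = 0 := by
            field_simp
            linear_combination hzw
          exact ⟨z / a, w', 0, fun hh => hw hh.2.1, by linear_combination this⟩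
      · refine ⟨x, y, 0, fun hh => hy hh.2.1, ?_⟩
        have : a * (a * x ^ 2 + b * y ^ 2) = 0 := by linear_combination hN
        rcases mul_eq_zero.1 this with h1 | h1
        · exact absurd h1 ha
        · linear_combination h1
    · refine ⟨x, y, 0, fun hh => hx hh.1, ?_⟩
      have : a * (a * x ^ 2 + b * y ^ 2) = 0 := by linear_combination hN
      rcases mul_eq_zero.1 this with h1 | h1
      · exact absurd h1 ha
      · linear_combination h1
  · rw [thm_Tern F a b c h2 ha hb hc]
    -- -(a c) = N(a x, y) / N(z, w') = N((a x) z + ..., ...) / N^2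
    set D := z ^ 2 + a * b * w' ^ 2 with hD
    refine ⟨(a * x * z + a * b * y * w') / D, (y * z - a * x * w') / D, ?_⟩
    have hD2 : D ^ 2 ≠ 0 := pow_ne_zero 2 hzw
    have hN' : a * c * D = -((a * x) ^ 2 + a * b * y ^ 2) := by linear_combination hN
    have h1 : ((a * x * z + a * b * y * w') / D) ^ 2 * D ^ 2 = (a * x * z + a * b * y * w') ^ 2 := by
      rw [div_pow, div_mul_cancel₀ _ hD2]
    have h2' : ((y * z - a * x * w') / D) ^ 2 * D ^ 2 = (y * z - a * x * w') ^ 2 := by
      rw [div_pow, div_mul_cancel₀ _ hD2]
    apply mul_right_cancel₀ hD2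
    clear_value w' D
    linear_combination (-D) * hN' - h1 - a * b * h2' + ((a * x) ^ 2 + a * b * y ^ 2) * hD

theorem thm_Com : St_Com := by
  intro F _ n a b h h2 ha hb hh0 hiso
  obtain ⟨x, hx, hz⟩ := hiso
  rw [Fin.sum_univ_succ, Fin.sum_univ_succ] at hz
  simp only [Fin.cons_zero, Fin.cons_succ, Algebra.algebraMap_self, RingHom.id_apply] at hz
  set X := x 0 with hX
  set Y := x (Fin.succ 0) with hY
  set Z : Fin (n + 1) → F := fun i => x (Fin.succ (Fin.succ i)) with hZ
  have hz' : a * X ^ 2 + b * Y ^ 2 + ∑ i, h i * Z i ^ 2 = 0 := by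
    rw [add_assoc]; exact hz
  by_cases hc : a * X ^ 2 + b * Y ^ 2 = 0
  · by_cases hZ0 : Z = 0
    · have hXY : X ≠ 0 ∧ Y ≠ 0 := by
        constructor
        · intro hX0
          have hY0 : Y = 0 := by
            have : b * Y ^ 2 = 0 := by rw [hX0] at hc; linear_combination hc
            simpa [hb] using this
          apply hx
          ext i
          refine Fin.cases ?_ (fun j => ?_) i
          · exact hX0
          · refine Fin.cases ?_ (fun k => ?_) j
            · exact hY0
            · exact congrFun hZ0 k
        · intro hY0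
          have hX0 : X = 0 := by
            have : a * X ^ 2 = 0 := by rw [hY0] at hc; linear_combination hc
            simpa [ha] using this
          apply hx
          ext i
          refine Fin.cases ?_ (fun j => ?_) i
          · exact hX0
          · refine Fin.cases ?_ (fun k => ?_) j
            · exact hY0
            · exact congrFun hZ0 k
      obtain ⟨u, v, huv⟩ := bin_univ h2 ha hXY.1 hc (-(h 0))
      refine ⟨u, v, by rw [huv]; exact neg_ne_zero.2 hh0, ?_⟩
      refine ⟨Fin.cons 1 (Pi.single 0 1), fun h0 => ?_, ?_⟩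
      · have := congrFun h0 0
        simp at this
      · rw [Fin.sum_univ_succ]
        simp only [Fin.cons_zero, Fin.cons_succ, Algebra.algebraMap_self, RingHom.id_apply]
        rw [Finset.sum_eq_single (0 : Fin (n + 1))]
        · rw [huv]; simp
        · intro j _ hj
          simp [hj]
        · simp
    · refine ⟨1, 0, by simpa using ha, Fin.cons 0 Z, fun h0 => hZ0 ?_, ?_⟩
      · ext i
        have := congrFun h0 (Fin.succ i)
        simpa using this
      · rw [Fin.sum_univ_succ]
        simp only [Fin.cons_zero, Fin.cons_succ, Algebra.algebraMap_self, RingHom.id_apply]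
        rw [hc, zero_add] at hz'
        rw [hz']
        simp
  · refine ⟨X, Y, hc, Fin.cons 1 Z, fun h0 => ?_, ?_⟩
    · have := congrFun h0 0
      simp at this
    · rw [Fin.sum_univ_succ]
      simp only [Fin.cons_zero, Fin.cons_succ, Algebra.algebraMap_self, RingHom.id_apply]
      rw [one_pow, mul_one]
      exact hz'

end HM
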