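import Pool.Agent.HM.Stmts

/-!
# Ternary forms with unit coefficients at a good finite place

The coefficients are approximated by algebraic integers, the congruence is solved in the finite
field `O_K / v`, and the solution is corrected with the square root theorem.
-/

open NumberField IsDedekindDomain Topology Filter

noncomputable section

namespace HM

open HP7 (Pl)

section good

variable {K : Type} [Field K] [NumberField K] (v : HeightOneSpectrum (𝓞 K))

/-- the embedding of the integers -/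
private def gE : 𝓞 K →+* v.adicCompletion K :=
  (FinitePlace.embedding (K := K) v).comp (algebraMap (𝓞 K) K)

private lemma gE_lt (x : 𝓞 K) : ‖gE v x‖ < 1 ↔ x ∈ v.asIdeal :=
  FinitePlace.norm_lt_one_iff_mem K v x

private lemma gE_le (x : 𝓞 K) : ‖gE v x‖ ≤ 1 :=
  FinitePlace.norm_le_one K v x

private lemma gum : IsUltrametricDist (v.adicCompletion K) :=
  inferInstance

private lemma g_add_lt {x y : v.adicCompletion K} (hx : ‖x‖ < 1) (hy : ‖y‖ < 1) :
    ‖x + y‖ < 1 :=
  haveI := gum v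
  lt_of_le_of_lt (IsUltrametricDist.norm_add_le_max x y) (max_lt hx hy)

private lemma g_norm_le_iff (x : v.adicCompletion K) : ‖x‖ ≤ 1 ↔ Valued.v x ≤ 1 :=
  Valued.toNormedField.norm_le_one_iff

private lemma g_norm_lt_iff (x : v.adicCompletion K) : ‖x‖ < 1 ↔ Valued.v x < 1 :=
  Valued.toNormedField.norm_lt_one_iff

private lemma g_norm_eq (x : v.adicCompletion K) (hx : Valued.v x = 1) : ‖x‖ = 1 := by
  refine le_antisymm ((g_norm_le_iff v x).2 hx.le) (not_lt.1 fun h => ?_)
  exact absurd ((g_norm_lt_iff v x).1 h) (by rw [hx]; exact lt_irrefl _)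

/-- approximation by integers -/
private lemma g_approx (z : v.adicCompletion K) (hz : ‖z‖ ≤ 1) :
    ∃ r : 𝓞 K, ‖gE v r - z‖ < 1 := by
  haveI := gum v
  obtain ⟨k, hk⟩ := (HeightOneSpectrum.denseRange_algebraMap K v).exists_dist_lt z
    (zero_lt_one (α := ℝ))
  rw [dist_eq_norm] at hk
  have hk1 : ‖algebraMap K (v.adicCompletion K) k‖ ≤ 1 := by
    have h1 : algebraMap K (v.adicCompletion K) k =
        z + -(z - algebraMap K (v.adicCompletion K) k) := by ring
    rw [h1]
    refine le_trans (IsUltrametricDist.norm_add_le_max _ _) (max_le hz ?_)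
    rw [norm_neg]
    exact hk.le
  have hk2 : v.valuation K k ≤ 1 := by
    have h1 := (g_norm_le_iff v _).1 hk1
    have h2 := HeightOneSpectrum.valuedAdicCompletion_eq_valuation' (K := K) v k
    rw [← h2]
    exact h1
  obtain ⟨r, hr⟩ := HeightOneSpectrum.exists_valuation_sub_lt_of_integer v hk2 1
  refine ⟨r, ?_⟩
  have h3 : ‖algebraMap K (v.adicCompletion K) (algebraMap (𝓞 K) K r - k)‖ < 1 := by
    refine (g_norm_lt_iff v _).2 ?_
    have h2 := HeightOneSpectrum.valuedAdicCompletion_eq_valuation' (K := K) v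
      (algebraMap (𝓞 K) K r - k)
    have h4 : Valued.v (algebraMap K (v.adicCompletion K) (algebraMap (𝓞 K) K r - k)) =
      v.valuation K (algebraMap (𝓞 K) K r - k) := h2
    rw [h4]
    exact hr
  have h5 : gE v r - z = algebraMap K (v.adicCompletion K) (algebraMap (𝓞 K) K r - k) +
      -(z - algebraMap K (v.adicCompletion K) k) := by
    rw [map_sub]
    have h6 : gE v r = algebraMap K (v.adicCompletion K) (algebraMap (𝓞 K) K r) := rfl
    rw [h6]
    ring
  rw [h5]
  refine g_add_lt v h3 ?_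
  rw [norm_neg]
  exact hk

/-- the correction step -/
private lemma g_fix (hSqNA : St_SqNA) (a b c x y : v.adicCompletion K)
    (h4 : ‖(4 : v.adicCompletion K)‖ = 1) (h2 : (2 : v.adicCompletion K) ≠ 0)
    (ha : ‖a‖ = 1) (hx : ‖x‖ = 1) (h : ‖a * x ^ 2 + b * y ^ 2 + c‖ < 1) :
    ∃ t : v.adicCompletion K, a * (t * x) ^ 2 + b * y ^ 2 + c = 0 := by
  haveI := gum v
  have hax : a * x ^ 2 ≠ 0 := by
    intro h0
    have h1 : ‖a * x ^ 2‖ = 1 := by rw [norm_mul, norm_pow, ha, hx]; norm_num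
    rw [h0, norm_zero] at h1
    exact zero_ne_one h1
  obtain ⟨t, -, ht⟩ := hSqNA (v.adicCompletion K) (-(b * y ^ 2 + c) / (a * x ^ 2)) h2 (by
    rw [h4]
    have h1 : -(b * y ^ 2 + c) / (a * x ^ 2) - 1 =
        -(a * x ^ 2 + b * y ^ 2 + c) / (a * x ^ 2) := by
      rw [div_sub_one hax]
      ring
    rw [h1, norm_div, norm_neg, norm_mul, norm_pow, ha, hx, one_pow, one_mul, div_one]
    exact h)
  refine ⟨t, ?_⟩
  rw [div_eq_iff hax] at ht
  linear_combination -ht

end good

theorem thm_Good (hSqNA : St_SqNA) : St_Good := by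
  intro K _ _ v a h2 ha
  have hn2 : ‖(2 : v.adicCompletion K)‖ = 1 := g_norm_eq v _ h2
  have h20 : (2 : v.adicCompletion K) ≠ 0 := fun h => by
    rw [h, norm_zero] at hn2
    exact zero_ne_one hn2
  have hn4 : ‖(4 : v.adicCompletion K)‖ = 1 := by
    have h1 : (4 : v.adicCompletion K) = 2 * 2 := by norm_num
    rw [h1, norm_mul, hn2, mul_one]
  have hna : ∀ i, ‖a i‖ = 1 := fun i => g_norm_eq v _ (ha i)
  choose r hr using fun i => g_approx v (a i) (hna i).le
  have hrv : ∀ i, r i ∉ v.asIdeal := by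
    intro i hi
    rw [← gE_lt] at hi
    have h1 : a i = gE v (r i) + -(gE v (r i) - a i) := by ring
    have h3 : ‖a i‖ < 1 := by
      rw [h1]
      refine g_add_lt v hi ?_
      rw [norm_neg]
      exact hr i
    rw [hna i] at h3
    exact lt_irrefl _ h3
  have h2v : (2 : 𝓞 K) ∉ v.asIdeal := by
    intro hi
    rw [← gE_lt, map_ofNat, hn2] at hi
    exact lt_irrefl _ hi
  -- the finite field
  haveI hmax : v.asIdeal.IsMaximal := v.isMaximal
  letI : Field (𝓞 K ⧸ v.asIdeal) := Ideal.Quotient.field v.asIdeal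
  haveI : Finite (𝓞 K ⧸ v.asIdeal) := v.asIdeal.finiteQuotientOfFreeOfNeBot v.ne_bot
  letI : Fintype (𝓞 K ⧸ v.asIdeal) := Fintype.ofFinite _
  have hk0 : ∀ x : 𝓞 K, Ideal.Quotient.mk v.asIdeal x = 0 ↔ x ∈ v.asIdeal := fun x =>
    Ideal.Quotient.eq_zero_iff_mem
  have hodd : Fintype.card (𝓞 K ⧸ v.asIdeal) % 2 = 1 := by
    refine FiniteField.odd_card_of_char_ne_two fun hc => h2v ?_
    rw [← hk0, map_ofNat]
    have h1 := ringChar.Nat.cast_ringChar (R := 𝓞 K ⧸ v.asIdeal)
    rw [hc] at h1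
    exact_mod_cast h1
  obtain ⟨x, y, hxy⟩ : ∃ x y : 𝓞 K, r 0 * x ^ 2 + r 1 * y ^ 2 + r 2 ∈ v.asIdeal := by
    have hd1 : (Polynomial.C (Ideal.Quotient.mk v.asIdeal (r 0)) * Polynomial.X ^ 2).degree = 2 := by
      rw [Polynomial.degree_C_mul_X_pow]
      · rfl
      · exact fun h => hrv 0 ((hk0 _).1 h)
    have hd2 : (Polynomial.C (Ideal.Quotient.mk v.asIdeal (r 1)) * Polynomial.X ^ 2 +
        Polynomial.C (Ideal.Quotient.mk v.asIdeal (r 2))).degree = 2 := by
      have h1 : (Polynomial.C (Ideal.Quotient.mk v.asIdeal (r 1)) *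
          Polynomial.X ^ 2).degree = 2 := by
        rw [Polynomial.degree_C_mul_X_pow]
        · rfl
        · exact fun h => hrv 1 ((hk0 _).1 h)
      rw [Polynomial.degree_add_eq_left_of_degree_lt, h1]
      rw [h1]
      exact lt_of_le_of_lt Polynomial.degree_C_le (by norm_num)
    obtain ⟨x, y, h⟩ := FiniteField.exists_root_sum_quadratic hd1 hd2 hodd
    obtain ⟨x, rfl⟩ := Ideal.Quotient.mk_surjective x
    obtain ⟨y, rfl⟩ := Ideal.Quotient.mk_surjective y
    refine ⟨x, y, ?_⟩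
    rw [← hk0]
    simp only [Polynomial.eval_mul, Polynomial.eval_C, Polynomial.eval_pow, Polynomial.eval_X,
      Polynomial.eval_add] at h
    simp only [map_add, map_mul, map_pow]
    rw [add_assoc]
    exact h
  -- transfer to the completion
  have hsmall : ‖a 0 * gE v x ^ 2 + a 1 * gE v y ^ 2 + a 2‖ < 1 := by
    have h1 : a 0 * gE v x ^ 2 + a 1 * gE v y ^ 2 + a 2 =
        gE v (r 0 * x ^ 2 + r 1 * y ^ 2 + r 2) + (-(gE v (r 0) - a 0) * gE v x ^ 2 +
          (-(gE v (r 1) - a 1) * gE v y ^ 2 + -(gE v (r 2) - a 2))) := by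
      simp only [map_add, map_mul, map_pow]
      ring
    have h3 : ∀ (i : Fin 3) (z : 𝓞 K), ‖-(gE v (r i) - a i) * gE v z ^ 2‖ < 1 := by
      intro i z
      rw [norm_mul, norm_neg, norm_pow]
      exact lt_of_le_of_lt (mul_le_of_le_one_right (norm_nonneg _)
        (pow_le_one₀ (norm_nonneg _) (gE_le v z))) (hr i)
    rw [h1]
    refine g_add_lt v ((gE_lt v _).2 hxy) (g_add_lt v (h3 0 x) (g_add_lt v (h3 1 y) ?_))
    rw [norm_neg]
    exact hr 2
  have hunit : ∀ z : 𝓞 K, z ∉ v.asIdeal → ‖gE v z‖ = 1 := fun z hz =>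
    le_antisymm (gE_le v z) (not_lt.1 fun h => hz ((gE_lt v z).1 h))
  by_cases hx : x ∈ v.asIdeal
  · by_cases hy : y ∈ v.asIdeal
    · exfalso
      apply hrv 2
      have h1 : r 2 = r 0 * x ^ 2 + r 1 * y ^ 2 + r 2 - (r 0 * x * x + r 1 * y * y) := by ring
      rw [h1]
      exact Ideal.sub_mem _ hxy (Ideal.add_mem _ (Ideal.mul_mem_left _ _ hx)
        (Ideal.mul_mem_left _ _ hy))
    · obtain ⟨t, ht⟩ := g_fix v hSqNA (a 1) (a 0) (a 2) (gE v y) (gE v x) hn4 h20 (hna 1)
        (hunit y hy) (by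
          have h1 : a 1 * gE v y ^ 2 + a 0 * gE v x ^ 2 + a 2 =
            a 0 * gE v x ^ 2 + a 1 * gE v y ^ 2 + a 2 := by ring
          rw [h1]
          exact hsmall)
      refine ⟨![gE v x, t * gE v y, 1], fun h0 => ?_, ?_⟩
      · exact one_ne_zero (α := v.adicCompletion K) (congrFun h0 2)
      · rw [Fin.sum_univ_three]
        change a 0 * gE v x ^ 2 + a 1 * (t * gE v y) ^ 2 + a 2 * 1 ^ 2 = 0
        linear_combination ht
  · obtain ⟨t, ht⟩ := g_fix v hSqNA (a 0) (a 1) (a 2) (gE v x) (gE v y) hn4 h20 (hna 0)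
      (hunit x hx) hsmall
    refine ⟨![t * gE v x, gE v y, 1], fun h0 => ?_, ?_⟩
    · exact one_ne_zero (α := v.adicCompletion K) (congrFun h0 2)
    · rw [Fin.sum_univ_three]
      change a 0 * (t * gE v x) ^ 2 + a 1 * gE v y ^ 2 + a 2 * 1 ^ 2 = 0
      linear_combination ht

end HM
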