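import Pool.Agent.HM.Stmts

/-!
# Completions in extensions

Infinite places: v = w.comap (algebraMap K L) and the map of completions of Mathlib. Finite places:
v is the prime below w; the algebra map is uniformly continuous for the adic uniformities.
-/

open NumberField IsDedekindDomain Topology Filter

noncomputable section

namespace HM

open HP7 (Pl)

theorem lift_inf {K L : Type} [Field K] [NumberField K] [Field L] [NumberField L] [Algebra K L]
    (w : InfinitePlace L) : ∃ (v : InfinitePlace K) (φ : v.Completion →+* w.Completion),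
      ∀ x : K, φ (algebraMap K v.Completion x) =
        algebraMap L w.Completion (algebraMap K L x) := by
  refine ⟨w.comap (algebraMap K L), ?_⟩
  have : w.LiesOver (w.comap (algebraMap K L)) := ⟨rfl⟩
  refine ⟨NumberField.LiesOver.completionMap, fun x => ?_⟩
  exact NumberField.LiesOver.completionMap_coe (v := w.comap (algebraMap K L)) (w := w)
    ((WithAbs.equiv _).symm x)

theorem lift_fin {K L : Type} [Field K] [NumberField K] [Field L] [NumberField L] [Algebra K L]
    (w : HeightOneSpectrum (𝓞 L)) :
    ∃ (v : HeightOneSpectrum (𝓞 K)) (φ : v.adicCompletion K →+* w.adicCompletion L),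
      ∀ x : K, φ (algebraMap K (v.adicCompletion K) x) =
        algebraMap L (w.adicCompletion L) (algebraMap K L x) := by
  refine ⟨w.under (𝓞 K), ?_⟩
  have : w.asIdeal.LiesOver (w.under (𝓞 K)).asIdeal := ⟨rfl⟩
  have huc := HeightOneSpectrum.uniformContinuous_algebraMap_liesOver K L (w.under (𝓞 K)) w
  refine ⟨((HeightOneSpectrum.adicCompletion.equiv L w).symm.toRingHom.comp
    (UniformSpace.Completion.mapRingHom _ huc.continuous)).comp
    (HeightOneSpectrum.adicCompletion.equiv K (w.under (𝓞 K))).toRingHom, fun x => ?_⟩
  apply HeightOneSpectrum.adicCompletion.ext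
  exact UniformSpace.Completion.mapRingHom_coe huc.continuous ((WithVal.equiv _).symm x)

theorem thm_Lift : St_Lift := by
  intro K L _ _ _ _ _ w
  rcases w with w | w
  · obtain ⟨v, φ, h⟩ := lift_fin (K := K) w
    exact ⟨Sum.inl v, φ, h⟩
  · obtain ⟨v, φ, h⟩ := lift_inf (K := K) w
    exact ⟨Sum.inr v, φ, h⟩

theorem thm_BaseChange (hLift : St_Lift) : HP7.St_BaseChange := by
  intro K K' _ _ _ _ φ P hP h w'
  let _ := φ.toAlgebra
  obtain ⟨v, j, hj⟩ := hLift K K' w'
  have hv := (at_iff P v).1 (h v)
  rw [at_iff]
  have := hP _ _ (algebraMap K (Cpl v)) j hv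
  have he : j.comp (algebraMap K (Cpl v)) = (algebraMap K' (Cpl w')).comp φ := by
    ext x
    exact hj x
  rw [he] at this
  exact this

end HM
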