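import Pool.Agent.HM.Stmts

/-!
PLAN. c = (1 + 2 z)^2 iff z^2 + z = (c - 1)/4 =: e, norm e < 1. The map z -> e - z^2 sends the closed
ball of radius norm e (complete) to itself and is a contraction there
(norm (z^2 - z'^2) <= norm e * norm (z - z')): Banach fixed point on a closed ball
(ContractingWith, or iterate by hand with a Cauchy sequence). t = 1 + 2 z is
nonzero: norm (2 z) <= norm z < 1 (norm 2 <= 1 in an ultrametric normed field,
IsUltrametricDist.norm_natCast_le_one).
-/

open NumberField IsDedekindDomain Topology Filter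

noncomputable section

namespace HM

open HP7 (Pl)

theorem thm_SqNA : St_SqNA := by
  intro F _ _ _ c h2 hc
  have h4 : (4 : F) ≠ 0 := by
    have e : (4 : F) = 2 * 2 := by norm_num
    rw [e]
    exact mul_ne_zero h2 h2
  set e : F := (c - 1) / 4 with he
  have hr : ‖e‖ < 1 := by
    rw [he, norm_div]
    exact (div_lt_one (norm_pos_iff.mpr h4)).mpr hc
  have hball : ∀ z : F, z ∈ Metric.closedBall (0 : F) ‖e‖ ↔ ‖z‖ ≤ ‖e‖ := by
    intro z
    rw [Metric.mem_closedBall, dist_zero_right]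
  let f : F → F := fun z => e - z ^ 2
  have hmaps : Set.MapsTo f (Metric.closedBall (0 : F) ‖e‖) (Metric.closedBall (0 : F) ‖e‖) := by
    intro z hz
    rw [hball] at hz ⊢
    show ‖e - z ^ 2‖ ≤ ‖e‖
    have h1 : ‖z ^ 2‖ ≤ ‖e‖ := by
      rw [norm_pow, sq]
      calc ‖z‖ * ‖z‖ ≤ ‖e‖ * 1 :=
            mul_le_mul hz (hz.trans hr.le) (norm_nonneg _) (norm_nonneg _)
        _ = ‖e‖ := mul_one _
    have h3 : ‖e + -(z ^ 2)‖ ≤ max ‖e‖ ‖-(z ^ 2)‖ := IsUltrametricDist.norm_add_le_max _ _
    rw [norm_neg] at h3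
    rw [sub_eq_add_neg]
    exact h3.trans (max_le le_rfl h1)
  have hcon : ContractingWith (⟨‖e‖, norm_nonneg _⟩ : NNReal)
      (Set.MapsTo.restrict f _ _ hmaps) := by
    refine ⟨?_, ?_⟩
    · exact hr
    · apply LipschitzWith.of_dist_le_mul
      rintro ⟨x, hx⟩ ⟨y, hy⟩
      rw [hball] at hx hy
      show dist (e - x ^ 2) (e - y ^ 2) ≤ ‖e‖ * dist x y
      rw [dist_eq_norm, dist_eq_norm]
      have e1 : e - x ^ 2 - (e - y ^ 2) = -((x + y) * (x - y)) := by ring
      rw [e1, norm_neg, norm_mul]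
      apply mul_le_mul_of_nonneg_right _ (norm_nonneg _)
      exact (IsUltrametricDist.norm_add_le_max _ _).trans (max_le hx hy)
  have h0 : (0 : F) ∈ Metric.closedBall (0 : F) ‖e‖ := by
    rw [hball, norm_zero]
    exact norm_nonneg _
  obtain ⟨z, hz, hfix, -⟩ := ContractingWith.exists_fixedPoint' (α := F)
    (Metric.isClosed_closedBall.isComplete) hmaps hcon h0 (edist_ne_top _ _)
  rw [hball] at hz
  have hz2 : e - z ^ 2 = z := hfix
  refine ⟨1 + 2 * z, ?_, ?_⟩
  · intro h
    have h5 : (2 : F) * z = -1 := by linear_combination h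
    have h6 : ‖(2 : F) * z‖ = 1 := by rw [h5, norm_neg, norm_one]
    have h7 : ‖(2 : F)‖ ≤ 1 := by
      have := IsUltrametricDist.norm_natCast_le_one F 2
      exact_mod_cast this
    rw [norm_mul] at h6
    have h8 : ‖(2 : F)‖ * ‖z‖ ≤ 1 * ‖z‖ := mul_le_mul_of_nonneg_right h7 (norm_nonneg _)
    rw [h6, one_mul] at h8
    linarith
  · have h5 : c = 1 + 4 * e := by
      rw [he]
      field_simp
      ring
    rw [h5]
    linear_combination 4 * hz2

end HM
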