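import Pool.Agent.HP7.Defs

/-!
# Block HM (Hasse-Minkowski over number fields): completions and isotropy
-/

open NumberField IsDedekindDomain

noncomputable section

namespace HM

open HP7 (Pl)

variable {K : Type} [Field K] [NumberField K]

/-- The completion of `K` at the place `w`. -/
def Cpl : Pl K → Type
  | Sum.inl v => v.adicCompletion K
  | Sum.inr v => v.Completion

instance (w : Pl K) : NormedField (Cpl w) :=
  match w with
  | Sum.inl v => inferInstanceAs (NormedField (v.adicCompletion K))
  | Sum.inr v => inferInstanceAs (NormedField v.Completion)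

instance (w : Pl K) : Algebra K (Cpl w) :=
  match w with
  | Sum.inl v => inferInstanceAs (Algebra K (v.adicCompletion K))
  | Sum.inr v => inferInstanceAs (Algebra K v.Completion)

instance (w : Pl K) : CompleteSpace (Cpl w) :=
  match w with
  | Sum.inl v => inferInstanceAs (CompleteSpace (v.adicCompletion K))
  | Sum.inr v => inferInstanceAs (CompleteSpace v.Completion)

instance (w : Pl K) : CharZero (Cpl w) :=
  charZero_of_injective_algebraMap (algebraMap K (Cpl w)).injective

/-- `At` in terms of `Cpl`. -/
theorem at_iff (P : HP7.LocProp K) (w : Pl K) :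
    HP7.At P w ↔ P (Cpl w) (algebraMap K (Cpl w)) := by
  cases w <;> exact Iff.rfl

/-- The value over `F` of the quadratic form with symmetric matrix `M` (entries in `R`). -/
def qf {R : Type} [CommRing R] {n : ℕ} (M : Matrix (Fin n) (Fin n) R) {F : Type} [CommRing F]
    [Algebra R F] (x : Fin n → F) : F :=
  ∑ i, ∑ j, algebraMap R F (M i j) * (x i * x j)

/-- The quadratic form with symmetric matrix `M` (entries in `R`) is isotropic over `F`. -/
def MIso {R : Type} [CommRing R] {n : ℕ} (M : Matrix (Fin n) (Fin n) R) (F : Type) [CommRing F]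
    [Algebra R F] : Prop :=
  ∃ x : Fin n → F, x ≠ 0 ∧ qf M x = 0

/-- The diagonal quadratic form with coefficients `a i` in `R` is isotropic over `F`. -/
def DIso {R : Type} [CommRing R] {n : ℕ} (a : Fin n → R) (F : Type) [CommRing F]
    [Algebra R F] : Prop :=
  ∃ x : Fin n → F, x ≠ 0 ∧ ∑ i, algebraMap R F (a i) * x i ^ 2 = 0

end HM
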