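import Pool.Agent.HM.Stmts

/-!
PLAN. b c' with c' near 1: c' is a square. One uniform proof with the inverse function theorem for
x -> x^2 at 1 (a complete normed field; if all nonzero elements have norm one there is nothing to do).
Then c = b * (c / b), norm (c/b - 1) = norm (c - b) / norm b.
-/

open NumberField IsDedekindDomain Topology Filter

noncomputable section

namespace HM

open HP7 (Pl)

private theorem sqNear_one (F : Type) [NormedField F] [CompleteSpace F] (h2 : (2 : F) ≠ 0) :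
    ∃ δ > 0, ∀ c : F, ‖c - 1‖ < δ → ∃ t : F, t ≠ 0 ∧ c = t ^ 2 := by
  by_cases h : ∃ x : F, x ≠ 0 ∧ ‖x‖ ≠ 1
  · let _ := NontriviallyNormedField.ofNormNeOne h
    have h3 : HasStrictDerivAt (fun x : F => x ^ 2) 2 1 := by
      have h4 := hasStrictDerivAt_pow 2 (1 : F)
      refine h4.congr_deriv ?_
      push_cast
      ring
    have h5 : map (fun x : F => x ^ 2) (𝓝 1) = 𝓝 (1 ^ 2) := h3.map_nhds_eq h2
    have h6 : (fun x : F => x ^ 2) '' {x | x ≠ 0} ∈ 𝓝 (1 ^ 2 : F) := by
      rw [← h5]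
      exact image_mem_map (isOpen_ne.mem_nhds one_ne_zero)
    rw [one_pow] at h6
    obtain ⟨δ, hδ, h7⟩ := Metric.mem_nhds_iff.1 h6
    refine ⟨δ, hδ, fun c hc => ?_⟩
    have h8 : c ∈ Metric.ball (1 : F) δ := by
      rw [Metric.mem_ball, dist_eq_norm]
      exact hc
    obtain ⟨t, ht, htc⟩ := h7 h8
    exact ⟨t, ht, htc.symm⟩
  · push Not at h
    refine ⟨1, one_pos, fun c hc => ⟨1, one_ne_zero, ?_⟩⟩
    by_contra h3
    have h4 : c - 1 ≠ 0 := by
      intro h5
      apply h3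
      rw [one_pow]
      exact sub_eq_zero.1 h5
    rw [h _ h4] at hc
    exact lt_irrefl _ hc

theorem thm_SqNear : St_SqNear := by
  intro K _ _ v b hb
  obtain ⟨δ, hδ, h⟩ := sqNear_one (Cpl v) two_ne_zero
  have hb' : 0 < ‖b‖ := norm_pos_iff.2 hb
  refine ⟨δ * ‖b‖, mul_pos hδ hb', fun c hc => ?_⟩
  have h1 : ‖c / b - 1‖ < δ := by
    have h2 : c / b - 1 = (c - b) / b := by
      rw [sub_div, div_self hb]
    rw [h2, norm_div, div_lt_iff₀ hb']
    exact hc
  obtain ⟨t, ht, htc⟩ := h _ h1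
  refine ⟨t, ht, ?_⟩
  rw [← htc, mul_div_cancel₀ _ hb]

end HM
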