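import Pool.Agent.HM.Defs

/-!
# Statements of block HM (Hasse-Minkowski over number fields)

Inputs from the class field theory block: `HP7.St_HNT` and `St_LI`.
-/

open NumberField IsDedekindDomain Topology Filter

noncomputable section

namespace HM

open HP7 (Pl)

/-! ## Input from the class field theory block -/

/-- (LI) In a completion at a finite place the norm group of a quadratic extension has
index two. -/
def St_LI : Prop := ∀ (K : Type) [Field K] [NumberField K] (v : HeightOneSpectrum (𝓞 K))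
  (a : v.adicCompletion K), a ≠ 0 → (¬ ∃ x, a = x ^ 2) →
  (∃ b : v.adicCompletion K, b ≠ 0 ∧ ¬ ∃ x y, b = x ^ 2 - a * y ^ 2) ∧
  (∀ b c : v.adicCompletion K, b ≠ 0 → c ≠ 0 → (¬ ∃ x y, b = x ^ 2 - a * y ^ 2) →
    (¬ ∃ x y, c = x ^ 2 - a * y ^ 2) → ∃ x y, b * c = x ^ 2 - a * y ^ 2)

/-! ## Local analysis and approximation -/

/-- Non-archimedean square roots. -/
def St_SqNA : Prop := ∀ (F : Type) [NormedField F] [CompleteSpace F] [IsUltrametricDist F]
  (c : F), (2 : F) ≠ 0 → ‖c - 1‖ < ‖(4 : F)‖ → ∃ t : F, t ≠ 0 ∧ c = t ^ 2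

/-- Square classes are open. -/
def St_SqNear : Prop := ∀ (K : Type) [Field K] [NumberField K] (v : Pl K) (b : Cpl v), b ≠ 0 →
  ∃ ε > 0, ∀ c : Cpl v, ‖c - b‖ < ε → ∃ t : Cpl v, t ≠ 0 ∧ c = b * t ^ 2

/-- Weak approximation at finitely many places. -/
def St_WA : Prop := ∀ (K : Type) [Field K] [NumberField K] (S : Finset (Pl K))
  (t : ∀ v : Pl K, Cpl v) (ε : ℝ), 0 < ε →
  ∃ x : K, ∀ v ∈ S, ‖algebraMap K (Cpl v) x - t v‖ < ε

/-- Strong approximation away from the rational prime `p`. -/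
def St_Strong : Prop := ∀ (K : Type) [Field K] [NumberField K] (p : ℕ), p.Prime →
  ∀ (S : Finset (Pl K)),
  (∀ v : HeightOneSpectrum (𝓞 K), Sum.inl v ∈ S → v.valuation K (p : K) = 1) →
  ∀ (t : Pl K → K) (ε : ℝ), 0 < ε →
  ∃ x : K, (∀ w ∈ S, ‖algebraMap K (Cpl w) (x - t w)‖ < ε) ∧
    ∀ v : HeightOneSpectrum (𝓞 K), Sum.inl v ∉ S → v.valuation K (p : K) = 1 →
      v.valuation K x ≤ 1

/-- Outside a finite set of places containing the infinite ones a finite set of nonzero elements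
consists of units, and the place does not divide two. -/
def St_AA : Prop := ∀ (K : Type) [Field K] [NumberField K] (s : Finset K), (0 : K) ∉ s →
  ∃ S : Finset (Pl K), (∀ v : InfinitePlace K, Sum.inr v ∈ S) ∧
    ∀ v : HeightOneSpectrum (𝓞 K), Sum.inl v ∉ S →
      v.valuation K 2 = 1 ∧ ∀ a ∈ s, v.valuation K a = 1

/-- A ternary form with unit coefficients at a finite place not dividing two is isotropic. -/
def St_Good : Prop := ∀ (K : Type) [Field K] [NumberField K] (v : HeightOneSpectrum (𝓞 K))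
  (a : Fin 3 → v.adicCompletion K), Valued.v (2 : v.adicCompletion K) = 1 →
  (∀ i, Valued.v (a i) = 1) → DIso a (v.adicCompletion K)

/-! ## Algebra of quadratic forms -/

/-- A ternary form is isotropic iff a certain element is a norm. -/
def St_Tern : Prop := ∀ (F : Type) [Field F] (a b c : F), (2 : F) ≠ 0 → a ≠ 0 → b ≠ 0 → c ≠ 0 →
  ((∃ x y z : F, ¬ (x = 0 ∧ y = 0 ∧ z = 0) ∧ a * x ^ 2 + b * y ^ 2 + c * z ^ 2 = 0) ↔
    ∃ x y : F, -(a * c) = x ^ 2 - (-(a * b)) * y ^ 2)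

/-- A quaternary isotropic form of square discriminant has isotropic ternary subforms. -/
def St_Quat : Prop := ∀ (F : Type) [Field F] (a b c e s : F), (2 : F) ≠ 0 →
  a ≠ 0 → b ≠ 0 → c ≠ 0 → e ≠ 0 → a * b * c * e = s ^ 2 →
  (∃ x y z w : F, ¬ (x = 0 ∧ y = 0 ∧ z = 0 ∧ w = 0) ∧
    a * x ^ 2 + b * y ^ 2 + c * z ^ 2 + e * w ^ 2 = 0) →
  ∃ x y z : F, ¬ (x = 0 ∧ y = 0 ∧ z = 0) ∧ a * x ^ 2 + b * y ^ 2 + c * z ^ 2 = 0

/-- Splitting off a common value. -/
def St_Com : Prop := ∀ (F : Type) [Field F] (n : ℕ) (a b : F) (h : Fin (n + 1) → F),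
  (2 : F) ≠ 0 → a ≠ 0 → b ≠ 0 → h 0 ≠ 0 →
  DIso (Fin.cons a (Fin.cons b h) : Fin (n + 3) → F) F →
  ∃ x y : F, a * x ^ 2 + b * y ^ 2 ≠ 0 ∧
    DIso (Fin.cons (a * x ^ 2 + b * y ^ 2) h : Fin (n + 2) → F) F

/-- A quaternary form which becomes isotropic over the quadratic extension generated by a square
root of its discriminant is isotropic. -/
def St_Four : Prop := ∀ (F L : Type) [Field F] [Field L] [Algebra F L] (s : L) (a : Fin 4 → F),
  (2 : F) ≠ 0 → (∀ i, a i ≠ 0) → s ^ 2 = algebraMap F L (∏ i, a i) →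
  (∀ z : L, ∃ x y : F, z = algebraMap F L x + algebraMap F L y * s) →
  DIso a L → DIso a F

/-- Diagonalisation. -/
def St_Diag : Prop := ∀ (K : Type) [Field K] (n : ℕ) (M : Matrix (Fin n) (Fin n) K),
  (2 : K) ≠ 0 → M.IsSymm → M.det ≠ 0 →
  ∃ a : Fin n → K, (∀ i, a i ≠ 0) ∧
    ∀ (F : Type) [Field F] [Algebra K F], MIso M F ↔ DIso a F

/-- Splitting off a hyperbolic plane: if the nondegenerate form `S` is isotropic there is a
nondegenerate form `S'` in two variables less whose Witt index is one less, over every extension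
field. -/
def St_Split : Prop := ∀ (K : Type) [Field K] (n : ℕ) (S : Matrix (Fin (n + 2)) (Fin (n + 2)) K),
  (2 : K) ≠ 0 → S.IsSymm → S.det ≠ 0 → HP7.HasIso S 1 →
  ∃ S' : Matrix (Fin n) (Fin n) K, S'.IsSymm ∧ S'.det ≠ 0 ∧
    ∀ (F : Type) [Field F] (i : K →+* F) (m : ℕ),
      HP7.HasIso (S.map i) (m + 1) ↔ HP7.HasIso (S'.map i) m

/-! ## Places in extensions -/

/-- Every place of `L` lies over a place of `K`. -/
def St_Lift : Prop := ∀ (K L : Type) [Field K] [NumberField K] [Field L] [NumberField L]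
  [Algebra K L] (w : Pl L), ∃ (v : Pl K) (φ : Cpl v →+* Cpl w),
    ∀ x : K, φ (algebraMap K (Cpl v) x) = algebraMap L (Cpl w) (algebraMap K L x)

/-! ## Hasse-Minkowski -/

def St_HM3 : Prop := ∀ (K : Type) [Field K] [NumberField K] (a : Fin 3 → K),
  (∀ i, a i ≠ 0) → (∀ v : Pl K, DIso a (Cpl v)) → DIso a K

def St_HM4 : Prop := ∀ (K : Type) [Field K] [NumberField K] (a : Fin 4 → K),
  (∀ i, a i ≠ 0) → (∀ v : Pl K, DIso a (Cpl v)) → DIso a K

/-- Induction step. -/
def St_HMs : Prop := ∀ (K : Type) [Field K] [NumberField K] (n : ℕ), 4 ≤ n →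
  (∀ a : Fin n → K, (∀ i, a i ≠ 0) → (∀ v : Pl K, DIso a (Cpl v)) → DIso a K) →
  ∀ a : Fin (n + 1) → K, (∀ i, a i ≠ 0) → (∀ v : Pl K, DIso a (Cpl v)) → DIso a K

/-- Hasse-Minkowski for symmetric matrices in at least three variables. -/
def St_HMsym : Prop := ∀ (K : Type) [Field K] [NumberField K] (n : ℕ)
  (M : Matrix (Fin n) (Fin n) K), 3 ≤ n → M.IsSymm → (∀ v : Pl K, MIso M (Cpl v)) → MIso M K

/-! ## Local forms at finite places (dyadic ones included) -/

/-- A nondegenerate quaternary form whose discriminant is not a square is isotropic. -/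
def St_Loc4ns : Prop := ∀ (K : Type) [Field K] [NumberField K] (v : HeightOneSpectrum (𝓞 K))
  (a : Fin 4 → v.adicCompletion K), (∀ i, a i ≠ 0) → (¬ ∃ s, ∏ i, a i = s ^ 2) →
  DIso a (v.adicCompletion K)

/-- Every nondegenerate quaternary form is universal. -/
def St_Loc4 : Prop := ∀ (K : Type) [Field K] [NumberField K] (v : HeightOneSpectrum (𝓞 K))
  (a : Fin 4 → v.adicCompletion K), (∀ i, a i ≠ 0) → ∀ b : v.adicCompletion K,
  ∃ x : Fin 4 → v.adicCompletion K, ∑ i, a i * x i ^ 2 = b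

/-- Every form in five variables is isotropic. -/
def St_Loc5 : Prop := ∀ (K : Type) [Field K] [NumberField K] (v : HeightOneSpectrum (𝓞 K))
  (n : ℕ) (M : Matrix (Fin n) (Fin n) (v.adicCompletion K)), 5 ≤ n → M.IsSymm →
  MIso M (v.adicCompletion K)

/-- Two anisotropic quaternary forms are equivalent. -/
def St_Loc4eq : Prop := ∀ (K : Type) [Field K] [NumberField K] (v : HeightOneSpectrum (𝓞 K))
  (a b : Fin 4 → v.adicCompletion K), (∀ i, a i ≠ 0) → (∀ i, b i ≠ 0) →
  ¬ DIso a (v.adicCompletion K) → ¬ DIso b (v.adicCompletion K) →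
  ∃ P : Matrix (Fin 4) (Fin 4) (v.adicCompletion K), P.det ≠ 0 ∧
    P.transpose * Matrix.diagonal a * P = Matrix.diagonal b

end HM
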